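import Pool.Agent.Helper2.TS.Spec

/-!
# TS, part DEG (helper23): the primes of degree one and the roots modulo `p`
-/

set_option autoImplicit false

open Polynomial
open scoped NumberField

namespace Pool.Agent.Helper23.TS.DEG

open Pool.Agent.Helper20.EP Pool.Agent.Helper2.TS

section basic

variable {K : Type} [Field K] [NumberField K] {p : ℕ} (hp : p.Prime)
  {P : Ideal (𝓞 K)} (hP : P.IsPrime) (hN : Ideal.absNorm P = p)

include hN in
theorem p_mem : (p : 𝓞 K) ∈ P := by
  have h := Ideal.absNorm_mem P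
  rwa [hN] at h

include hp hP hN in
theorem int_mem_iff (n : ℤ) : (n : 𝓞 K) ∈ P ↔ (p : ℤ) ∣ n := by
  constructor
  · intro h
    by_contra hd
    have hc : IsCoprime (p : ℤ) n := (Nat.prime_iff_prime_int.mp hp).coprime_iff_not_dvd.mpr hd
    obtain ⟨u, v, huv⟩ := hc
    apply hP.ne_top
    rw [Ideal.eq_top_iff_one]
    have h1 : (1 : 𝓞 K) = (u : 𝓞 K) * (p : 𝓞 K) + (v : 𝓞 K) * (n : 𝓞 K) := by
      have := congrArg (fun z : ℤ => (z : 𝓞 K)) huv
      push_cast at this
      exact this.symm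
    rw [h1]
    exact P.add_mem (P.mul_mem_left _ (p_mem hN)) (P.mul_mem_left _ h)
  · rintro ⟨k, rfl⟩
    push_cast
    exact P.mul_mem_right _ (p_mem hN)

include hp hP hN in
theorem exists_rep (x : 𝓞 K) : ∃ r : ℕ, r < p ∧ x - (r : 𝓞 K) ∈ P := by
  classical
  have hcard : Nat.card (𝓞 K ⧸ P) = p := by
    rw [← hN, Ideal.absNorm_apply, Submodule.cardQuot_apply]
  have : Finite (𝓞 K ⧸ P) := Nat.finite_of_card_ne_zero (by rw [hcard]; exact hp.pos.ne')
  have : Fintype (𝓞 K ⧸ P) := Fintype.ofFinite _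
  let f : Fin p → 𝓞 K ⧸ P := fun i => Ideal.Quotient.mk P (i : 𝓞 K)
  have hinj : Function.Injective f := by
    intro i j hij
    have h1 : ((i : ℕ) : 𝓞 K) - ((j : ℕ) : 𝓞 K) ∈ P := Ideal.Quotient.eq.mp hij
    have h2 : (((i : ℤ) - (j : ℤ) : ℤ) : 𝓞 K) ∈ P := by
      push_cast
      exact h1
    have h3 := (int_mem_iff hp hP hN _).mp h2
    obtain ⟨k, hk⟩ := h3
    have hi := i.2
    have hj := j.2
    have hpp := hp.pos
    apply Fin.ext
    have : k = 0 := by
      by_contra hk0
      rcases lt_or_gt_of_ne hk0 with h | h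
      · have : (p : ℤ) * k ≤ -(p : ℤ) := by nlinarith
        omega
      · have : (p : ℤ) ≤ (p : ℤ) * k := by nlinarith
        omega
    rw [this] at hk
    omega
  have hb : Function.Bijective f := by
    rw [Fintype.bijective_iff_injective_and_card]
    refine ⟨hinj, ?_⟩
    rw [Fintype.card_fin, ← Nat.card_eq_fintype_card, hcard]
  obtain ⟨i, hi⟩ := hb.2 (Ideal.Quotient.mk P x)
  exact ⟨i, i.2, Ideal.Quotient.eq.mp hi.symm⟩

end basic

section alg

variable {K : Type} [Field K] [NumberField K] {P : Ideal (𝓞 K)} {θ : 𝓞 K} {r : ℕ}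
  (h : θ - (r : 𝓞 K) ∈ P)

include h in
theorem mk_theta : Ideal.Quotient.mk P θ = (r : 𝓞 K ⧸ P) := by
  rw [Ideal.Quotient.eq.mpr h, map_natCast]

include h in
theorem al_sub {D : ℕ} (a : Fin D → ℤ) : al θ a - ((evz (r : ℤ) a : ℤ) : 𝓞 K) ∈ P := by
  rw [← Ideal.Quotient.eq, al, evz]
  push_cast
  simp only [map_sum, map_mul, map_pow, map_intCast, map_natCast, mk_theta h]

include h in
theorem eval_mem (g : ℤ[X]) (hg : aeval θ g = 0) : ((g.eval (r : ℤ) : ℤ) : 𝓞 K) ∈ P := by
  rw [← Ideal.Quotient.eq_zero_iff_mem]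
  have h1 : Ideal.Quotient.mk P (aeval θ g) = aeval (Ideal.Quotient.mk P θ) g := by
    rw [aeval_def, aeval_def, hom_eval₂]
    congr 1
  have h2 : aeval ((r : ℕ) : 𝓞 K ⧸ P) g = ((g.eval (r : ℤ) : ℤ) : 𝓞 K ⧸ P) := by
    have := aeval_algebraMap_apply (𝓞 K ⧸ P) (r : ℤ) g
    simpa using this
  rw [map_intCast, ← h2, ← mk_theta h, ← h1, hg, map_zero]

end alg

/-- Multiplication by `g'(θ)` leads into `ℤ[θ]`. -/
theorem deriv_mul {g : ℤ[X]} {D : ℕ} {H : ℝ} (hg : Good g D H) {K : Type} [Field K] [NumberField K]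
    {θ : 𝓞 K} (hK : Gen g D K θ) (x : 𝓞 K) :
    ∃ a : Fin D → ℤ, aeval θ (derivative g) * x = al θ a := by
  have hint : IsIntegral ℤ θ := ⟨g, hg.monic, by rw [← aeval_def]; exact hK.root⟩
  have hmin : minpoly ℤ θ = g := by
    have hd : minpoly ℤ θ ∣ g := minpoly.isIntegrallyClosed_dvd hint hK.root
    have hm := minpoly.monic hint
    have ha : Associated (minpoly ℤ θ) g := by
      refine (hg.irr.dvd_iff.mp hd).resolve_left ?_ |>.symm
      intro hu
      exact minpoly.not_isUnit ℤ θ hu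
    exact eq_of_monic_of_associated hm hg.monic ha
  have hintK : IsIntegral ℤ (algebraMap (𝓞 K) K θ) := hint.map (IsScalarTower.toAlgHom ℤ (𝓞 K) K)
  have hminK : minpoly ℤ (algebraMap (𝓞 K) K θ) = g := by
    rw [minpoly.algebraMap_eq (NumberField.RingOfIntegers.coe_injective (K := K)) θ, hmin]
  have hdeg : (minpoly ℚ (algebraMap (𝓞 K) K θ)).natDegree = Module.finrank ℚ K := by
    rw [minpoly.isIntegrallyClosed_eq_field_fractions' ℚ hintK, hminK, hg.monic.natDegree_map,
      hg.deg, hK.rank]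
  have htop := (Field.primitive_element_iff_minpoly_natDegree_eq ℚ (algebraMap (𝓞 K) K θ)).mpr hdeg
  have hadj : Algebra.adjoin ℚ {algebraMap (𝓞 K) K θ} = ⊤ := by
    rw [← IntermediateField.adjoin_simple_toSubalgebra_of_isAlgebraic
      (IsAlgebraic.of_finite ℚ (algebraMap (𝓞 K) K θ)), htop, IntermediateField.top_toSubalgebra]
  have hcond := conductor_mul_differentIdeal ℤ ℚ K θ hadj
  rw [hmin] at hcond
  have hmem : aeval θ (derivative g) ∈ conductor ℤ θ := by
    have : aeval θ (derivative g) ∈ conductor ℤ θ * differentIdeal ℤ (𝓞 K) := by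
      rw [hcond]
      exact Ideal.mem_span_singleton_self _
    exact Ideal.mul_le_left this
  have hx := (mem_conductor_iff.mp hmem) x
  rw [Algebra.adjoin_singleton_eq_range_aeval] at hx
  obtain ⟨f, hf⟩ := hx
  refine ⟨fun i => (f %ₘ g).coeff i, ?_⟩
  have h1 : aeval θ f = aeval θ (f %ₘ g) := by
    conv_lhs => rw [← modByMonic_add_div f g]
    rw [map_add, map_mul, hK.root, zero_mul, add_zero]
  have hf' : aeval θ f = aeval θ (derivative g) * x := hf
  rw [← hf', h1, al]
  have hlt : (f %ₘ g).natDegree < D := by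
    rw [← hg.deg]
    refine natDegree_modByMonic_lt f hg.monic ?_
    intro h
    have := hg.deg
    rw [h, natDegree_one] at this
    have := hg.one_le
    omega
  rw [aeval_eq_sum_range' hlt]
  rw [Finset.sum_range]
  refine Finset.sum_congr rfl fun i _ => ?_
  rw [zsmul_eq_mul]

theorem main : S_DEG := by
  classical
  intro g D H hg K _ _ θ hK p hp
  refine ⟨fun P => if h : ∃ r : ℕ, r < p ∧ θ - (r : 𝓞 K) ∈ P then h.choose else 0, ?_, ?_⟩
  · intro P hP hN
    have hex := exists_rep hp hP hN θ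
    simp only [dif_pos hex]
    obtain ⟨h1, h2⟩ := hex.choose_spec
    refine ⟨h1, ?_, ?_⟩
    · rw [← int_mem_iff hp hP hN]
      exact eval_mem h2 g hK.root
    · intro a
      rw [← int_mem_iff hp hP hN]
      have h3 := al_sub h2 a
      constructor
      · intro h4
        have := P.sub_mem h4 h3
        simpa using this
      · intro h4
        have := P.add_mem h3 h4
        simpa using this
  · intro hnd P Q hP hQ hNP hNQ hφ
    have hexP := exists_rep hp hP hNP θ
    have hexQ := exists_rep hp hQ hNQ θ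
    simp only [dif_pos hexP, dif_pos hexQ] at hφ
    obtain ⟨hP1, hP2⟩ := hexP.choose_spec
    obtain ⟨hQ1, hQ2⟩ := hexQ.choose_spec
    rw [hφ] at hP2
    have key : ∀ (P Q : Ideal (𝓞 K)) (r : ℕ), P.IsPrime → Q.IsPrime → Ideal.absNorm P = p →
        Ideal.absNorm Q = p → θ - (r : 𝓞 K) ∈ P → θ - (r : 𝓞 K) ∈ Q → P ≤ Q := by
      intro P Q r hP hQ hNP hNQ h1 h2 x hx
      obtain ⟨a, ha⟩ := deriv_mul hg hK x
      have h3 : al θ a ∈ P := by
        rw [← ha]
        exact P.mul_mem_left _ hx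
      have h4 : ((evz (r : ℤ) a : ℤ) : 𝓞 K) ∈ P := by
        have := P.sub_mem h3 (al_sub h1 a)
        simpa using this
      have h5 : ((evz (r : ℤ) a : ℤ) : 𝓞 K) ∈ Q := by
        rw [int_mem_iff hp hQ hNQ]
        exact (int_mem_iff hp hP hNP _).mp h4
      have h6 : al θ a ∈ Q := by
        have := Q.add_mem (al_sub h2 a) h5
        simpa using this
      rw [← ha] at h6
      rcases hQ.mem_or_mem h6 with h7 | h7
      · exfalso
        apply hnd
        have := Ideal.absNorm_dvd_norm_of_mem h7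
        rwa [hNQ] at this
      · exact h7
    exact le_antisymm (key P Q _ hP hQ hNP hNQ hP2 hQ2) (key Q P _ hQ hP hNQ hNP hQ2 hP2)

end Pool.Agent.Helper23.TS.DEG
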